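import Mathlib

set_option autoImplicit false

open Matrix Filter Topology
open scoped MatrixOrder ComplexOrder

namespace Pool.Agent.H.MP_59e64e_co

variable {n : ℕ}

abbrev M (n : ℕ) := Matrix (Fin n) (Fin n) ℂ

noncomputable def tr (X Y : M n) : ℝ := (X * Y).trace.re

theorem tr_comm (X Y : M n) : tr X Y = tr Y X := by rw [tr, trace_mul_comm]; rfl

theorem tr_add (X Y Z : M n) : tr (X + Y) Z = tr X Z + tr Y Z := by simp [tr, add_mul]

theorem tr_sub (X Y Z : M n) : tr (X - Y) Z = tr X Z - tr Y Z := by simp [tr, sub_mul]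

theorem tr_smul (c : ℝ) (X Z : M n) : tr (c • X) Z = c * tr X Z := by simp [tr]

theorem tr_add' (X Y Z : M n) : tr Z (X + Y) = tr Z X + tr Z Y := by simp [tr, mul_add]

theorem tr_sub' (X Y Z : M n) : tr Z (X - Y) = tr Z X - tr Z Y := by simp [tr, mul_sub]

theorem tr_smul' (c : ℝ) (X Z : M n) : tr Z (c • X) = c * tr Z X := by simp [tr]

theorem tr_nonneg {A B : M n} (hA : A.PosSemidef) (hB : B.PosSemidef) : 0 ≤ tr A B := by
  obtain ⟨S, rfl⟩ := CStarAlgebra.nonneg_iff_eq_star_mul_self.mp hA.nonneg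
  have := (hB.mul_mul_conjTranspose_same S).trace_nonneg
  rw [trace_mul_cycle] at this
  exact (Complex.nonneg_iff.1 this).1

theorem tr_zero {A B : M n} (hA : A.PosSemidef) (hB : B.PosSemidef) (h : tr A B ≤ 0) :
    B * A = 0 := by
  obtain ⟨S, rfl⟩ := CStarAlgebra.nonneg_iff_eq_star_mul_self.mp hA.nonneg
  obtain ⟨T, rfl⟩ := CStarAlgebra.nonneg_iff_eq_star_mul_self.mp hB.nonneg
  have h1 := (hB.mul_mul_conjTranspose_same S).trace_nonneg
  have h2 : (S * (star T * T) * Sᴴ).trace = 0 := by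
    rw [trace_mul_cycle] at h1 ⊢
    exact Complex.ext (le_antisymm h (Complex.nonneg_iff.1 h1).1) (Complex.nonneg_iff.1 h1).2.symm
  have h3 : T * Sᴴ = 0 := trace_conjTranspose_mul_self_eq_zero_iff.1 (by
    rw [← h2, conjTranspose_mul, conjTranspose_conjTranspose]
    simp only [star_eq_conjTranspose, Matrix.mul_assoc])
  rw [star_eq_conjTranspose S, Matrix.mul_assoc, ← Matrix.mul_assoc T, h3]; simp

theorem tr_self {W : M n} (hW : W.IsHermitian) (h : tr W W ≤ 0) : W = 0 := by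
  have h1 := (posSemidef_conjTranspose_mul_self W).trace_nonneg
  refine trace_conjTranspose_mul_self_eq_zero_iff.1 ?_
  rw [hW.eq] at h1 ⊢
  exact Complex.ext (le_antisymm h (Complex.nonneg_iff.1 h1).1) (Complex.nonneg_iff.1 h1).2.symm

theorem tr_vec (a b : Fin n → ℂ) (Y : M n) :
    (vecMulVec a (star b) * Y).trace = star b ⬝ᵥ Y *ᵥ a := by
  rw [vecMulVec_mul, trace_vecMulVec, dotProduct_mulVec, dotProduct_comm]

theorem psd_of_tr {Z : M n} (hZ : Z.IsHermitian) (h : ∀ B : M n, B.PosSemidef → 0 ≤ tr B Z) :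
    Z.PosSemidef := .of_dotProduct_mulVec_nonneg hZ fun x => by
  have := h _ (posSemidef_vecMulVec_self_star x)
  rw [tr, tr_vec] at this
  exact Complex.nonneg_iff.2 ⟨this, (hZ.im_star_dotProduct_mulVec_self x).symm⟩

theorem maxrank (S : Set (M n)) (h0 : S.Nonempty) (h1 : ∀ A ∈ S, A.PosSemidef)
    (h2 : ∀ A ∈ S, ∀ B ∈ S, (1 / 2 : ℝ) • A + (1 / 2 : ℝ) • B ∈ S) :
    ∃ A ∈ S, ∀ B ∈ S, ∀ v, A *ᵥ v = 0 → B *ᵥ v = 0 := by
  obtain ⟨A, hA, h3⟩ := (InvImage.wf (fun A : M n => Module.finrank ℂ (LinearMap.ker A.toLin'))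
    Nat.lt_wfRel.wf).has_min S h0
  refine ⟨A, hA, fun B hB v hv => ?_⟩
  have h4 : ∀ v, ((1 / 2 : ℝ) • A + (1 / 2 : ℝ) • B) *ᵥ v = 0 → A *ᵥ v = 0 ∧ B *ᵥ v = 0 :=
    fun v hv => by
      have h5 := congrArg (fun w => star v ⬝ᵥ w) hv
      simp only [add_mulVec, smul_mulVec, dotProduct_add, dotProduct_smul, dotProduct_zero,
        ← smul_add, smul_eq_zero] at h5
      have h6 := (add_eq_zero_iff_of_nonneg ((h1 A hA).dotProduct_mulVec_nonneg v)
        ((h1 B hB).dotProduct_mulVec_nonneg v)).1 (h5.resolve_left (by norm_num))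
      exact ⟨((h1 A hA).dotProduct_mulVec_zero_iff v).1 h6.1,
        ((h1 B hB).dotProduct_mulVec_zero_iff v).1 h6.2⟩
  have h5 := Submodule.eq_of_le_of_finrank_le
    (S₁ := LinearMap.ker ((1 / 2 : ℝ) • A + (1 / 2 : ℝ) • B).toLin') (S₂ := LinearMap.ker A.toLin')
    (fun v hv => (h4 v hv).1) (not_lt.1 (h3 _ (h2 A hA B hB)))
  exact (h4 v (show v ∈ LinearMap.ker ((1 / 2 : ℝ) • A + (1 / 2 : ℝ) • B).toLin' from
    h5 ▸ hv)).2

theorem proj {A : M n} (hA : A.IsHermitian) :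
    ∃ P R : M n, P.IsHermitian ∧ P * P = P ∧ P = R * A ∧ A * P = A := by
  have hc : ∀ f : ℝ → ℝ, ContinuousOn f (spectrum ℝ A) := fun f =>
    (finite_real_spectrum (A := A)).continuousOn f
  have hs : IsSelfAdjoint A := hA
  refine ⟨cfc (fun x : ℝ => x⁻¹ * x) A, cfc (fun x : ℝ => x⁻¹) A, cfc_predicate _ A, ?_, ?_, ?_⟩
  · rw [← cfc_mul _ _ A (hc _) (hc _)]
    refine cfc_congr fun x _ => ?_
    by_cases h : x = 0 <;> simp [h]
  · rw [cfc_mul _ _ A (hc _) (hc _), cfc_id' ℝ A]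
  · conv_lhs => lhs; rw [← cfc_id' ℝ A]
    rw [← cfc_mul _ _ A (hc _) (hc _)]
    conv_rhs => rw [← cfc_id' ℝ A]
    refine cfc_congr fun x _ => ?_
    by_cases h : x = 0 <;> simp [h]

open scoped Matrix.Norms.L2Operator in
theorem one_add_psd {D : M n} (hD : D.IsHermitian) (h : ‖D‖ ≤ 1) : (1 + D).PosSemidef := by
  have h1 := IsSelfAdjoint.neg_algebraMap_norm_le_self (a := D) hD
  have h2 : algebraMap ℝ (M n) ‖D‖ ≤ 1 := by
    rw [Algebra.algebraMap_eq_smul_one, ← sub_nonneg]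
    nth_rewrite 1 [← one_smul ℝ (1 : M n)]
    rw [← sub_smul]
    exact smul_nonneg (sub_nonneg.2 h) zero_le_one
  exact (neg_le_iff_add_nonneg'.1 ((neg_le_neg h2).trans h1)).posSemidef

theorem near_one : ∀ᶠ D in 𝓝 (0 : M n), D.IsHermitian → (1 + D).PosSemidef := by
  open scoped Matrix.Norms.L2Operator in
  filter_upwards [Metric.closedBall_mem_nhds (0 : M n) one_pos] with D hD h
  exact one_add_psd h (by simpa using hD)

theorem small {Z Y : M n} (hZ : Z.PosSemidef) (h : ∀ v, Z *ᵥ v = 0 → v = 0) (hY : Y.IsHermitian) :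
    ∃ ε : ℝ, 0 < ε ∧ (Z + ε • Y).PosSemidef := by
  have h1 : IsUnit Z := mulVec_injective_iff_isUnit.1 fun v w hvw =>
    sub_eq_zero.1 (h _ (by rw [mulVec_sub, sub_eq_zero]; exact hvw))
  obtain ⟨S, rfl⟩ := CStarAlgebra.nonneg_iff_eq_star_mul_self.mp hZ.nonneg
  obtain ⟨T, h2⟩ := (isUnit_of_mul_isUnit_right h1).exists_left_inv
  have h3 : Tendsto (fun ε : ℝ => ε • (Tᴴ * Y * T)) (𝓝[>] 0) (𝓝 0) := by
    have : Continuous fun ε : ℝ => ε • (Tᴴ * Y * T) := by fun_prop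
    simpa using (this.tendsto 0).mono_left nhdsWithin_le_nhds
  obtain ⟨ε, h4, h5⟩ := ((h3.eventually near_one).and self_mem_nhdsWithin).exists
  refine ⟨ε, h5, ?_⟩
  have h6 := (h4 (IsSelfAdjoint.smul (star_trivial ε)
    (isHermitian_conjTranspose_mul_mul T hY))).conjTranspose_mul_mul_same S
  have h7 : Sᴴ * Tᴴ = 1 := by rw [← conjTranspose_mul, h2, conjTranspose_one]
  convert h6 using 1
  simp only [Matrix.mul_add, Matrix.add_mul, Matrix.mul_one, Matrix.mul_smul, Matrix.smul_mul,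
    ← Matrix.mul_assoc, h7, Matrix.one_mul, star_eq_conjTranspose]
  rw [Matrix.mul_assoc, h2, Matrix.mul_one]

abbrev H (n : ℕ) := selfAdjoint (M n)

instance : ContinuousSMul ℝ (H n) :=
  ⟨continuous_induced_rng.2 (continuous_fst.smul (continuous_subtype_val.comp continuous_snd))⟩

theorem finrank_H : Module.finrank ℝ (H n) = n ^ 2 ∧ FiniteDimensional ℝ (H n) := by
  have h0 : FiniteDimensional ℝ (H n) :=
    .of_injective (selfAdjoint.submodule ℝ (M n)).subtype Subtype.val_injective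
  let e : M n ≃ₗ[ℝ] H n × H n := LinearEquiv.ofBijective (realPart.prod imaginaryPart)
    ⟨fun a b h => by
      rw [← realPart_add_I_smul_imaginaryPart a, ← realPart_add_I_smul_imaginaryPart b,
        show realPart a = realPart b from congrArg Prod.fst h,
        show imaginaryPart a = imaginaryPart b from congrArg Prod.snd h],
     fun p => ⟨p.1 + Complex.I • p.2, by simp⟩⟩
  have h1 := e.finrank_eq
  rw [Module.finrank_prod, Module.finrank_matrix, Complex.finrank_real_complex] at h1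
  simp only [Fintype.card_fin] at h1
  exact ⟨by rw [sq]; omega, h0⟩

noncomputable def trL (Y : M n) : H n →ₗ[ℝ] ℝ where
  toFun X := tr X.1 Y
  map_add' X Z := tr_add X.1 Z.1 Y
  map_smul' c X := tr_smul c X.1 Y

theorem rep (f : H n →ₗ[ℝ] ℝ) : ∃ Z : H n, ∀ X : H n, f X = tr X.1 Z.1 := by
  have := finrank_H (n := n).2
  let φ : H n →ₗ[ℝ] Module.Dual ℝ (H n) :=
    { toFun := fun Y => trL Y.1
      map_add' := fun X Y => LinearMap.ext fun Z => tr_add' X.1 Y.1 Z.1
      map_smul' := fun c X => LinearMap.ext fun Z => tr_smul' c X.1 Z.1 }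
  have h1 : Function.Injective φ := (injective_iff_map_eq_zero _).2 fun W h =>
    Subtype.ext (tr_self W.2 (LinearMap.congr_fun h W).le)
  obtain ⟨Z, h⟩ := (LinearMap.injective_iff_surjective_of_finrank_eq_finrank
    Subspace.dual_finrank_eq.symm).1 h1 f
  exact ⟨Z, fun X => (LinearMap.congr_fun h X).symm⟩

end Pool.Agent.H.MP_59e64e_co
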