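import Pool.Agent.H.MP_59e64e_co.A

set_option autoImplicit false

open Matrix Filter Topology Set
open scoped MatrixOrder ComplexOrder

namespace Pool.Agent.H.MP_59e64e_co

variable {n : ℕ}

theorem tr_conj (P B Y : M n) : tr (P * B * P) Y = tr B (P * Y * P) := by
  rw [tr, tr, Matrix.mul_assoc, Matrix.mul_assoc, trace_mul_comm]
  simp only [Matrix.mul_assoc]

theorem lin_le {a c : ℝ} (h : ∀ t : ℝ, 0 ≤ t → t * a ≤ c) : a ≤ 0 := by
  by_contra ha
  have h0 := not_le.1 ha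
  have h1 := h ((|c| + 1) / a) (by positivity)
  rw [div_mul_cancel₀ _ h0.ne'] at h1
  linarith [le_abs_self c]

/-- conjugation by a Hermitian matrix -/
def cj (P : M n) (hP : P.IsHermitian) (B : H n) : H n :=
  ⟨P * B.1 * P, by
    have := isHermitian_conjTranspose_mul_mul P (A := B.1) B.2
    rwa [hP.eq] at this⟩

theorem psd_cj {P B : M n} (hP : P.IsHermitian) (hB : B.PosSemidef) : (P * B * P).PosSemidef := by
  have := hB.conjTranspose_mul_mul_same P
  rwa [hP.eq] at this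

variable {C : Set (H n)} (hC : ∀ A ∈ C, A.1.PosSemidef) (hcv : Convex ℝ C)
  (hh : ∀ A ∈ C, ∀ B : H n, B.1.PosSemidef → (A.1 - B.1).PosSemidef → B ∈ C)

include hC hcv hh in
theorem dual {A0 : H n} (h0 : A0 ∈ C) {P R : M n} (hP : P.IsHermitian) (hPP : P * P = P)
    (hR : P = R * A0.1) (hA : ∀ A ∈ C, P * A.1 * P = A.1) (Y : H n) (α : ℝ)
    (hY : ∀ A ∈ C, tr A.1 Y.1 ≤ α) :
    ∃ Z : H n, Z.1.PosSemidef ∧ (Z.1 - P * Y.1 * P).PosSemidef ∧ ∀ A ∈ C, tr A.1 Z.1 ≤ α := by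
  set E : Set (H n × ℝ) := {p | ∃ A ∈ C, ∃ B1 B2 L : H n, B1.1.PosSemidef ∧ B2.1.PosSemidef ∧
    P * L.1 * P = 0 ∧ p.1 = A - B1 - B2 + L ∧ p.2 ≤ tr B1.1 (P * Y.1 * P)} with hE
  have hz : (0 : H n) ∈ C := hh _ h0 0 .zero (by simpa using hC _ h0)
  have h1 : Convex ℝ E := by
    rintro p ⟨A, a1, B1, B2, L, a2, a3, a4, a5, a6⟩ q ⟨A', b1, B1', B2', L', b2, b3, b4, b5, b6⟩
      s t hs ht hst
    refine ⟨_, hcv a1 b1 hs ht hst, s • B1 + t • B1', s • B2 + t • B2', s • L + t • L',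
      (a2.smul hs).add (b2.smul ht), (a3.smul hs).add (b3.smul ht), ?_, ?_, ?_⟩
    · change P * (s • L.1 + t • L'.1) * P = 0
      simp [Matrix.mul_add, Matrix.add_mul, a4, b4]
    · rw [Prod.fst_add, Prod.smul_fst, Prod.smul_fst, a5, b5]; module
    · change s * p.2 + t * q.2 ≤ tr (s • B1.1 + t • B1'.1) _
      rw [tr_add, tr_smul, tr_smul]; gcongr
  have h2 : ((0 : H n), α) ∉ interior E := fun h => by
    have h3 : Tendsto (fun r : ℝ => ((0 : H n), r)) (𝓝[>] α) (𝓝 (0, α)) :=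
      ((continuous_const.prodMk continuous_id).tendsto α).mono_left nhdsWithin_le_nhds
    obtain ⟨r, ⟨A, a1, B1, B2, L, a2, a3, a4, a5, a6⟩, h4⟩ :=
      ((h3.eventually (mem_interior_iff_mem_nhds.1 h)).and self_mem_nhdsWithin).exists
    have h5 : A.1 - P * B1.1 * P = P * B2.1 * P := by
      have := congrArg (fun W : H n => P * W.1 * P) a5
      simp only [ZeroMemClass.coe_zero, AddSubgroup.coe_add, AddSubgroup.coe_sub, Matrix.mul_add,
        Matrix.add_mul, Matrix.mul_sub, Matrix.sub_mul, a4, hA A a1, Matrix.mul_zero,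
        Matrix.zero_mul, add_zero] at this
      exact (sub_eq_zero.1 this.symm)
    have h6 := hY _ (hh A a1 (cj P hP B1) (psd_cj hP a2) (by
      change (A.1 - P * B1.1 * P).PosSemidef
      rw [h5]; exact psd_cj hP a3))
    rw [show (cj P hP B1).1 = P * B1.1 * P from rfl, tr_conj] at h6
    exact absurd (a6.trans h6) (not_le.2 h4)
  have h3 : (interior E).Nonempty := by
    refine ⟨(-1, -1), mem_interior_iff_mem_nhds.2 ?_⟩
    have h4 : Tendsto (fun p : H n × ℝ => -p.1.1 - 1) (𝓝 (-1, -1)) (𝓝 0) := by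
      have : Continuous fun p : H n × ℝ => -p.1.1 - 1 := by fun_prop
      simpa using this.tendsto (-1, -1)
    have h5 : ∀ᶠ p : H n × ℝ in 𝓝 (-1, -1), p.2 < 0 :=
      (continuous_snd.tendsto _).eventually (gt_mem_nhds (by norm_num))
    filter_upwards [h4.eventually near_one, h5] with p h6 h7
    refine ⟨0, hz, 0, -p.1, 0, .zero, ?_, by simp, by simp, by simpa [tr] using h7.le⟩
    simpa using h6 (-p.1 - 1).2
  obtain ⟨f, hf, h4⟩ := geometric_hahn_banach_of_nonempty_interior_point h1 h2 h3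
  obtain ⟨Z, hZ⟩ := rep (f.toLinearMap ∘ₗ LinearMap.inl ℝ _ _)
  set μ := f (0, 1)
  have h5 : ∀ (W : H n) (r : ℝ), f (W, r) = tr W.1 Z.1 + r * μ := fun W r => by
    rw [← hZ, show (W, r) = (W, 0) + r • ((0 : H n), (1 : ℝ)) by simp, map_add, map_smul]; rfl
  have h6 : ∀ A ∈ C, ∀ B1 B2 L : H n, B1.1.PosSemidef → B2.1.PosSemidef → P * L.1 * P = 0 →
      ∀ r ≤ tr B1.1 (P * Y.1 * P),
        tr A.1 Z.1 - tr B1.1 Z.1 - tr B2.1 Z.1 + tr L.1 Z.1 + r * μ ≤ α * μ :=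
    fun A a1 B1 B2 L a2 a3 a4 r a5 => by
      have := h4 (A - B1 - B2 + L, r) ⟨A, a1, B1, B2, L, a2, a3, a4, rfl, a5⟩
      rw [h5, h5] at this
      simpa only [ZeroMemClass.coe_zero, AddSubgroup.coe_add, AddSubgroup.coe_sub, tr_add, tr_sub,
        show tr 0 Z.1 = 0 by simp [tr], zero_add] using this
  have t0 : ∀ W : M n, tr 0 W = 0 := fun W => by simp [tr]
  have h7 : 0 ≤ μ := neg_nonpos.1 (lin_le (c := α * μ) fun t ht => by
    simpa [t0] using h6 0 hz 0 0 0 .zero .zero (by simp) (-t) (by simpa [t0] using ht))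
  have h8 : Z.1.PosSemidef := psd_of_tr Z.2 fun B hB => neg_nonpos.1 (lin_le (c := α * μ)
    fun t ht => by
      simpa [t0, tr_smul] using h6 0 hz 0 (t • ⟨B, hB.1⟩) 0 .zero (hB.smul ht) (by simp) 0
        (by simp [t0]))
  have h9 : ∀ A ∈ C, tr A.1 Z.1 ≤ α * μ := fun A hA => by
    simpa [t0] using h6 A hA 0 0 0 .zero .zero (by simp) 0 (by simp [t0])
  have h10 : (Z.1 - μ • (P * Y.1 * P)).PosSemidef := psd_of_tr (Z - μ • cj P hP Y).2 fun B hB =>
    neg_nonpos.1 (lin_le (c := α * μ) fun t ht => by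
      have := h6 0 hz (t • ⟨B, hB.1⟩) 0 0 (hB.smul ht) .zero (by simp) _ le_rfl
      simp only [ZeroMemClass.coe_zero, t0, selfAdjoint.val_smul, tr_smul] at this
      rw [tr_sub', tr_smul']; linarith)
  rcases h7.eq_or_lt with h11 | h11
  · exfalso
    have h12 : Z.1 * P = 0 := by
      rw [← hP.eq, hR, conjTranspose_mul, (hC _ h0).1.eq, ← Matrix.mul_assoc,
        tr_zero (hC _ h0) h8 (by simpa [← h11] using h9 _ h0), Matrix.zero_mul]
    have h13 : Z.1 = 0 := tr_self Z.2 (lin_le (c := α * μ) fun t ht => by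
      simpa [t0, tr_smul] using h6 0 hz 0 0 (t • Z) .zero .zero (by
        simp [Matrix.mul_assoc, h12]) 0 (by simp [t0]))
    exact hf (ContinuousLinearMap.ext fun p => by
      rw [show p = (p.1, p.2) from rfl, h5, h13, ← h11]; simp [tr])
  refine ⟨μ⁻¹ • Z, h8.smul (inv_pos.2 h11).le, ?_, fun A hA => ?_⟩
  · have := h10.smul (inv_pos.2 h11).le
    rwa [smul_sub, smul_smul, inv_mul_cancel₀ h11.ne', one_smul] at this
  · rw [selfAdjoint.val_smul, tr_smul', inv_mul_le_iff₀ h11, mul_comm]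
    exact h9 A hA

include hC hcv hh in
theorem pd {X : H n} (hX : X ∈ C) (hX0 : X ≠ 0)
    (hv : ∀ W : H n, (∀ Y : H n, (∀ A ∈ C, tr A.1 Y.1 ≤ tr X.1 Y.1) → tr W.1 Y.1 = 0) → W = 0) :
    ∃ Z : H n, Z.1.PosSemidef ∧ (∀ v, Z.1 *ᵥ v = 0 → v = 0) ∧
      ∀ A ∈ C, tr A.1 Z.1 ≤ tr X.1 Z.1 := by
  obtain ⟨_, ⟨A0, h0, rfl⟩, h1⟩ := maxrank (Subtype.val '' C) ⟨_, X, hX, rfl⟩
    (by rintro _ ⟨A, h, rfl⟩; exact hC A h)
    (by
      rintro _ ⟨A, h, rfl⟩ _ ⟨B, h', rfl⟩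
      exact ⟨_, hcv h h' (by norm_num) (by norm_num) (by norm_num), rfl⟩)
  obtain ⟨P, R, hP, hPP, hR, h2⟩ := proj (A := A0.1) A0.2
  have h3 : ∀ A ∈ C, A.1 * P = A.1 := fun A hA => ext_iff_mulVec.2 fun v => by
    have := h1 _ ⟨A, hA, rfl⟩ (P *ᵥ v - v) (by rw [mulVec_sub, mulVec_mulVec, h2, sub_self])
    rwa [mulVec_sub, mulVec_mulVec, sub_eq_zero] at this
  have h4 : ∀ A ∈ C, P * A.1 = A.1 := fun A hA => by
    have := congrArg conjTranspose (h3 A hA)
    rwa [conjTranspose_mul, hP.eq, (hC A hA).1.eq] at this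
  have hA : ∀ A ∈ C, P * A.1 * P = A.1 := fun A hA => by rw [h4 A hA, h3 A hA]
  obtain ⟨Z0, ⟨g1, g2⟩, h5⟩ := maxrank {Z : M n | Z.PosSemidef ∧ ∀ A ∈ C, tr A.1 Z ≤ tr X.1 Z}
    ⟨0, .zero, fun A _ => by simp [tr]⟩ (fun _ h => h.1) fun A h B h' =>
      ⟨(h.1.smul (by norm_num)).add (h'.1.smul (by norm_num)), fun D hD => by
        simp only [tr_add', tr_smul']; linarith [h.2 D hD, h'.2 D hD]⟩
  refine ⟨⟨Z0, g1.1⟩, g1, fun v hv0 => ?_, g2⟩
  have h6 : P *ᵥ v = v := by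
    have h7 : (1 - P).PosSemidef := by
      have := posSemidef_conjTranspose_mul_self (1 - P)
      rwa [conjTranspose_sub, conjTranspose_one, hP.eq, Matrix.mul_sub, Matrix.sub_mul,
        Matrix.sub_mul, hPP, Matrix.one_mul P, sub_self, sub_zero, Matrix.mul_one,
        Matrix.mul_one] at this
    have := h5 (1 - P) ⟨h7, fun A hA => by
      simp [tr, Matrix.mul_sub, h3 A hA, h3 X hX]⟩ v hv0
    rwa [sub_mulVec, one_mulVec, sub_eq_zero, eq_comm] at this
  have h7 : ∀ (w : Fin n → ℂ) (Y : H n), (∀ A ∈ C, tr A.1 Y.1 ≤ tr X.1 Y.1) →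
      star (X.1 *ᵥ w) ⬝ᵥ Y.1 *ᵥ v = 0 := fun w Y hY => by
    obtain ⟨Z, z1, z2, z3⟩ := dual hC hcv hh h0 hP hPP hR hA Y _ hY
    have h8 : tr X.1 (P * Y.1 * P) = tr X.1 Y.1 := by rw [← tr_conj, hA X hX]
    have h9 := tr_zero z2 (hC X hX) (by rw [tr_comm, tr_sub', h8]; linarith [z3 X hX])
    have h10 := tr_nonneg (hC X hX) z2
    rw [tr_sub', h8] at h10
    have h11 := h5 Z.1 ⟨z1, fun A hA => by linarith [z3 A hA]⟩ v hv0
    have h12 := congrArg (fun W => W *ᵥ v) h9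
    simp only [← mulVec_mulVec, sub_mulVec, h11, h6, zero_mulVec, zero_sub, mulVec_neg,
      neg_eq_zero] at h12
    rw [mulVec_mulVec, h3 X hX] at h12
    rw [star_mulVec, (hC X hX).1.eq, ← dotProduct_mulVec, h12, dotProduct_zero]
  have h8 : ∀ w, vecMulVec v (star (X.1 *ᵥ w)) + vecMulVec (X.1 *ᵥ w) (star v) = 0 := fun w =>
    congrArg Subtype.val (hv ⟨vecMulVec v (star (X.1 *ᵥ w)) + vecMulVec (X.1 *ᵥ w) (star v), by
      change conjTranspose _ = _
      rw [conjTranspose_add, conjTranspose_vecMulVec, conjTranspose_vecMulVec, star_star,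
        star_star, add_comm]⟩ fun Y hY => by
      have h9 := h7 w Y hY
      have h10 := congrArg star h9
      rw [← star_dotProduct_star, star_star, star_mulVec, show Y.1ᴴ = Y.1 from Y.2,
        ← dotProduct_mulVec, star_zero] at h10
      simp only [tr, Matrix.add_mul, trace_add, tr_vec, h9, h10]
      simp)
  by_contra hv1
  refine hX0 (Subtype.ext (ext_iff_mulVec.2 fun w => ?_))
  obtain ⟨i, hi⟩ := Function.ne_iff.1 hv1
  funext j
  have a := congrFun (congrFun (h8 w) j) i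
  have b := congrFun (congrFun (h8 (Complex.I • w)) j) i
  simp only [mulVec_smul, Matrix.add_apply, vecMulVec_apply, Pi.star_apply, Pi.smul_apply,
    smul_eq_mul, star_mul', Matrix.zero_apply, Complex.star_def, Complex.conj_I] at a b
  have : (X.1 *ᵥ w) j * (starRingEnd ℂ) (v i) = 0 := by
    linear_combination (1 / 2) * a - (Complex.I / 2) * b +
      (((X.1 *ᵥ w) j * (starRingEnd ℂ) (v i) - v j * (starRingEnd ℂ) ((X.1 *ᵥ w) i)) / 2) *
        Complex.I_mul_I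
  simpa using (mul_eq_zero.1 this).resolve_right (by simpa using hi)

include hC hcv hh in
theorem main {X : H n} (hX : X ∈ C) (hX0 : X ≠ 0)
    (hv : ∀ W : H n, (∀ Y : H n, (∀ A ∈ C, tr A.1 Y.1 ≤ tr X.1 Y.1) → tr W.1 Y.1 = 0) → W = 0)
    (D F : Set (H n)) (hD : D = {Z | Z.1.PosSemidef ∧ ∀ A ∈ C, tr A.1 Z.1 ≤ 1})
    (hF : F = {Z | Z ∈ D ∧ tr X.1 Z.1 = 1}) :
    F.Nonempty ∧ F ⊆ frontier D ∧ Module.finrank ℝ (affineSpan ℝ F).direction = n ^ 2 - 1 := by
  obtain ⟨Z0, z1, z2, z3⟩ := pd hC hcv hh hX hX0 hv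
  have hz : (0 : H n) ∈ C := hh _ hX 0 .zero (by simpa using hC _ hX)
  have h1 : 0 < tr X.1 Z0.1 := by
    by_contra h
    refine hX0 (Subtype.ext (ext_iff_mulVec.2 fun w => ?_))
    rw [z2 (X.1 *ᵥ w) (by rw [mulVec_mulVec, tr_zero (hC X hX) z1 (not_lt.1 h), zero_mulVec])]
    simp
  have h2 : ∀ Z : H n, Z.1.PosSemidef → (∀ A ∈ C, tr A.1 Z.1 ≤ tr X.1 Z.1) → 0 < tr X.1 Z.1 →
      (tr X.1 Z.1)⁻¹ • Z ∈ F := fun Z a b c => by
    rw [hF, hD]
    refine ⟨⟨a.smul (inv_pos.2 c).le, fun A hA => ?_⟩, ?_⟩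
    · rw [selfAdjoint.val_smul, tr_smul', inv_mul_le_iff₀ c, mul_one]; exact b A hA
    · rw [selfAdjoint.val_smul, tr_smul', inv_mul_cancel₀ c.ne']
  have h3 : ∀ Z : H n, Z.1.PosSemidef → (∀ A ∈ C, tr A.1 Z.1 ≤ tr X.1 Z.1) → 0 < tr X.1 Z.1 →
      Z ∈ Submodule.span ℝ F := fun Z a b c => by
    have := Submodule.smul_mem _ (tr X.1 Z.1) (Submodule.subset_span (R := ℝ) (h2 Z a b c))
    rwa [smul_inv_smul₀ c.ne'] at this
  have h4 : Submodule.span ℝ F = ⊤ := by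
    by_contra h
    obtain ⟨f, h5, h6⟩ := Submodule.exists_le_ker_of_lt_top _ (lt_top_iff_ne_top.2 h)
    obtain ⟨W, hW⟩ := rep f
    refine h5 (LinearMap.ext fun V => ?_)
    rw [hW, hv W fun Y hY => ?_]
    · simp [tr]
    obtain ⟨ε, h7, h8⟩ := small z1 z2 (Y := Y.1) Y.2
    have h9 := h6 (h3 (Z0 + ε • Y) h8 (fun A hA => by
      simp only [AddSubgroup.coe_add, selfAdjoint.val_smul, tr_add', tr_smul']
      nlinarith [z3 A hA, hY A hA]) (by
      simp only [AddSubgroup.coe_add, selfAdjoint.val_smul, tr_add', tr_smul']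
      have := hY 0 hz
      rw [show tr (0 : H n).1 Y.1 = 0 by simp [tr]] at this
      nlinarith))
    have h10 := h6 (h3 Z0 z1 z3 h1)
    rw [LinearMap.mem_ker] at h9 h10
    rw [map_add, h10, map_smul, zero_add, smul_eq_zero, hW, tr_comm] at h9
    exact h9.resolve_left h7.ne'
  have h5 := h2 Z0 z1 z3 h1
  have h6 : ∀ Z ∈ F, trL X.1 Z = 1 := fun Z hZ => by
    rw [hF] at hZ; exact (tr_comm _ _).trans hZ.2
  refine ⟨⟨_, h5⟩, fun Z hZ => ⟨subset_closure (hF ▸ hZ).1, fun h => ?_⟩, ?_⟩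
  · have h7 : Tendsto (fun r : ℝ => Z + r • X) (𝓝[>] 0) (𝓝 Z) := by
      have : Continuous fun r : ℝ => Z + r • X := by fun_prop
      simpa using (this.tendsto 0).mono_left nhdsWithin_le_nhds
    obtain ⟨r, h8, h9⟩ :=
      ((h7.eventually (mem_interior_iff_mem_nhds.1 h)).and self_mem_nhdsWithin).exists
    rw [hD] at h8
    have h10 := h8.2 X hX
    rw [hF] at hZ
    rw [AddSubgroup.coe_add, selfAdjoint.val_smul, tr_add', tr_smul', hZ.2] at h10
    exact hX0 (Subtype.ext (tr_self X.2 (by nlinarith [show 0 < r from h9])))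
  · have h7 : (affineSpan ℝ F).direction = LinearMap.ker (trL X.1) := by
      rw [direction_affineSpan]
      refine le_antisymm (Submodule.span_le.2 ?_) fun W hW => ?_
      · rintro _ ⟨a, ha, b, hb, rfl⟩
        simp [h6 a ha, h6 b hb]
      · have h8 : ∀ W ∈ Submodule.span ℝ F,
            W - trL X.1 W • ((tr X.1 Z0.1)⁻¹ • Z0) ∈ vectorSpan ℝ F := fun W hW => by
          induction hW using Submodule.span_induction with
          | mem a ha => rw [h6 a ha, one_smul]; exact vsub_mem_vectorSpan ℝ ha h5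
          | zero => simp
          | add a b _ _ ha hb => convert add_mem ha hb using 1; rw [map_add]; module
          | smul c a _ ha => convert Submodule.smul_mem _ c ha using 1; rw [map_smul]; module
        simpa [LinearMap.mem_ker.1 hW] using h8 W (h4 ▸ trivial)
    have := finrank_H (n := n).2
    have h8 := LinearMap.finrank_range_add_finrank_ker (trL X.1)
    rw [LinearMap.range_eq_top.2 fun r => ⟨r • ((tr X.1 Z0.1)⁻¹ • Z0), by
      rw [map_smul, h6 _ h5]; simp⟩, finrank_H.1] at h8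
    rw [h7, ← h8]; simp

end Pool.Agent.H.MP_59e64e_co
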